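import Pool.Agent.CDS.Assembly

/-!
# Polylogarithmic minimum out-degree forces a subdivision of every digraph
-/

set_option autoImplicit false

namespace Pool.Agent.Results.MP_b1d27d_co.PolylogDegree

/-- Let `F` be a loopless digraph on `n` vertices, with prescribed arc lengths `ℓ a b ≤ lam + 1`.
Every loopless digraph `D` on `m ≥ 1` vertices whose minimum out-degree is at least
`8192 (n + n ^ 2 lam) ^ 8 (⌊log₂ m⌋ + 1) ^ 4` contains a subdivision of `F` in which the path
replacing the arc `(a, b)` has length at least `ℓ a b` (`F` need not be maderian).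
With `lam = 0` and `F` complete: a subdivision of the complete digraph on `n` vertices as soon as
the minimum out-degree is at least `8192 n ^ 8 (⌊log₂ m⌋ + 1) ^ 4`. -/
theorem result :
    ∀ (n lam : ℕ) (F : Fin n → Fin n → Prop) (ℓ : Fin n → Fin n → ℕ), (∀ a, ¬ F a a) →
      (∀ a b, ℓ a b ≤ lam + 1) →
      ∀ (m : ℕ) (D : Fin m → Fin m → Prop), 0 < m → (∀ v, ¬ D v v) →
        (∀ v, 8192 * (n + n ^ 2 * lam) ^ 8 * (Nat.log 2 m + 1) ^ 4 ≤
          Set.ncard {w : Fin m | D v w}) →
        ∃ f : Fin n → Fin m, Function.Injective f ∧ ∃ P : Fin n → Fin n → List (Fin m),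
          (∀ a b, F a b →
            (P a b).head? = some (f a) ∧ (P a b).getLast? = some (f b) ∧ (P a b).Nodup ∧
            ℓ a b + 1 ≤ (P a b).length ∧
            (∀ (i : ℕ) (u w : Fin m), (P a b)[i]? = some u → (P a b)[i+1]? = some w → D u w) ∧
            (∀ x, f x ∈ P a b → x = a ∨ x = b)) ∧
          (∀ a b c d, F a b → F c d → (a, b) ≠ (c, d) →
            ∀ v, v ∈ P a b → v ∈ P c d → ∃ x, f x = v) :=
  Pool.Agent.CDS.finC

end Pool.Agent.Results.MP_b1d27d_co.PolylogDegree
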